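import Mathlib

/-!
# The colouring of the pairs `(T, x)` (helper413)

`T` is a `k`-subset of a set with `3 k` elements, `x` is an element outside `T`.
-/

set_option autoImplicit false

namespace Pool.Agent.Y413.RA

open Finset

variable {α : Type} [Fintype α] [DecidableEq α]

/-- the colour `c` -/
def CC (p q : Finset α × α) : Prop :=
  Disjoint p.1 q.1 ∧ (p.2 = q.2 ∨ (p.2 ∈ q.1 ∧ q.2 ∈ p.1))

/-- the colour `b` -/
def BB (p q : Finset α × α) : Prop :=
  (p.2 ∈ q.1 ∧ q.2 ∈ p.1 ∧ ¬ Disjoint p.1 q.1) ∨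
    (Disjoint p.1 q.1 ∧ p.2 ≠ q.2 ∧ p.2 ∉ q.1 ∧ q.2 ∉ p.1)

/-- the colour `a` -/
def AA (p q : Finset α × α) : Prop := p ≠ q ∧ ¬ BB p q ∧ ¬ CC p q

omit [Fintype α] [DecidableEq α] in
lemma CC_symm {p q : Finset α × α} (h : CC p q) : CC q p := by
  obtain ⟨h1, h2⟩ := h
  exact ⟨h1.symm, h2.elim (fun h => Or.inl h.symm) (fun h => Or.inr ⟨h.2, h.1⟩)⟩

omit [Fintype α] [DecidableEq α] in
lemma BB_symm {p q : Finset α × α} (h : BB p q) : BB q p := by
  rcases h with ⟨h1, h2, h3⟩ | ⟨h1, h2, h3, h4⟩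
  · exact Or.inl ⟨h2, h1, fun h => h3 h.symm⟩
  · exact Or.inr ⟨h1.symm, h2.symm, h4, h3⟩

omit [Fintype α] [DecidableEq α] in
lemma AA_symm {p q : Finset α × α} (h : AA p q) : AA q p :=
  ⟨h.1.symm, fun h' => h.2.1 (BB_symm h'), fun h' => h.2.2 (CC_symm h')⟩

omit [Fintype α] [DecidableEq α] in
lemma not_BB_of_CC {p q : Finset α × α} (h : CC p q) : ¬ BB p q := by
  rintro (⟨h1, h2, h3⟩ | ⟨h1, h2, h3, h4⟩)
  · exact h3 h.1
  · rcases h.2 with h5 | h5
    · exact h2 h5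
    · exact h3 h5.1

/-- the admissible pairs -/
def OK (k : ℕ) (p : Finset α × α) : Prop := p.1.card = k ∧ p.2 ∉ p.1

omit [Fintype α] [DecidableEq α] in
/-- adjacency by `b` or `c` -/
lemma adj_iff {k : ℕ} {p q : Finset α × α} (hp : OK k p) (hq : OK k q)
    (h : BB p q ∨ CC p q) :
    (p.2 ∈ q.1 ∧ q.2 ∈ p.1) ∨ (Disjoint p.1 q.1 ∧ p.2 ∉ q.1 ∧ q.2 ∉ p.1) := by
  rcases h with (⟨h1, h2, h3⟩ | ⟨h1, h2, h3, h4⟩) | ⟨h1, h2 | h2⟩
  · exact Or.inl ⟨h1, h2⟩
  · exact Or.inr ⟨h1, h3, h4⟩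
  · exact Or.inr ⟨h1, h2 ▸ hq.2, h2 ▸ hp.2⟩
  · exact Or.inl h2

omit [Fintype α] [DecidableEq α] in
lemma ne_of_BB {k : ℕ} {p q : Finset α × α} (hk : 0 < k) (hp : OK k p) (h : BB p q) : p ≠ q := by
  rintro rfl
  rcases h with ⟨h1, h2, h3⟩ | ⟨h1, h2, h3, h4⟩
  · exact hp.2 h1
  · exact h2 rfl

omit [Fintype α] [DecidableEq α] in
lemma ne_of_CC {k : ℕ} {p q : Finset α × α} (hk : 0 < k) (hp : OK k p) (h : CC p q) : p ≠ q := by
  rintro rfl
  have h1 := h.1
  rw [disjoint_self] at h1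
  have h2 := hp.1
  rw [h1] at h2
  simp at h2
  omega

/-- no triangle with an edge `c` and two further edges `b` or `c` -/
lemma tri {k : ℕ} (hα : Fintype.card α = 3 * k) {p q r : Finset α × α} (hp : OK k p) (hq : OK k q)
    (hr : OK k r) (h : CC p q) (h1 : BB p r ∨ CC p r) (h2 : BB q r ∨ CC q r) : False := by
  obtain ⟨hd, hxy⟩ := h
  rcases adj_iff hp hr h1 with ⟨a1, a2⟩ | ⟨a1, a2, a3⟩ <;>
    rcases adj_iff hq hr h2 with ⟨b1, b2⟩ | ⟨b1, b2, b3⟩
  · exact disjoint_left.1 hd a2 b2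
  · rcases hxy with h | ⟨h, -⟩
    · exact b2 (h ▸ a1)
    · exact disjoint_left.1 b1 h a1
  · rcases hxy with h | ⟨-, h⟩
    · exact a2 (h ▸ b1)
    · exact disjoint_left.1 a1 h b1
  · have hcard : (p.1 ∪ q.1 ∪ r.1).card = 3 * k := by
      rw [card_union_of_disjoint (disjoint_union_left.2 ⟨a1, b1⟩), card_union_of_disjoint hd,
        hp.1, hq.1, hr.1]
      ring
    have huniv : p.1 ∪ q.1 ∪ r.1 = univ := by
      rw [← card_eq_iff_eq_univ, hcard, hα]
    have hz : r.2 ∈ p.1 ∪ q.1 ∪ r.1 := huniv ▸ mem_univ _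
    rw [mem_union, mem_union] at hz
    rcases hz with (h | h) | h
    · exact a3 h
    · exact b3 h
    · exact hr.2 h

/-- many sets between two given sets -/
lemma many {k : ℕ} {A B : Finset α} (hAB : A ⊆ B) (hA : A.card ≤ k) (hA3 : A.card ≤ 3)
    (hB : 2 * k ≤ B.card + A.card) :
    ∃ F : Finset (Finset α), 2 ^ (k - 3) ≤ F.card ∧ ∀ R ∈ F, A ⊆ R ∧ R ⊆ B ∧ R.card = k := by
  refine ⟨((B \ A).powersetCard (k - A.card)).image (fun R => R ∪ A), ?_, ?_⟩
  · rw [card_image_of_injOn, card_powersetCard, card_sdiff_of_subset hAB]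
    · have h1 : (2 * (k - A.card)).choose (k - A.card) ≤ (B.card - A.card).choose (k - A.card) :=
        Nat.choose_le_choose _ (by have := card_le_card hAB; omega)
      refine le_trans ?_ h1
      have h2 : ∀ n : ℕ, 2 ^ n ≤ (2 * n).choose n := by
        intro n
        induction n with
        | zero => simp
        | succ n ih =>
          have h := Nat.succ_mul_centralBinom_succ n
          have h3 : (2 * n).choose n = n.centralBinom := rfl
          have h4 : (2 * (n + 1)).choose (n + 1) = (n + 1).centralBinom := rfl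
          rw [h3] at ih
          rw [h4]
          have h5 : (n + 1) * 2 ^ (n + 1) ≤ (n + 1) * (n + 1).centralBinom := by
            rw [h, pow_succ]
            calc (n + 1) * (2 ^ n * 2) = 2 * (n + 1) * 2 ^ n := by ring
              _ ≤ 2 * (2 * n + 1) * n.centralBinom := Nat.mul_le_mul (by omega) ih
          exact Nat.le_of_mul_le_mul_left h5 (by omega)
      exact le_trans (Nat.pow_le_pow_right (by norm_num) (by omega)) (h2 _)
    · intro R hR R' hR' h
      have h1 := (mem_powersetCard.1 hR).1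
      have h2 := (mem_powersetCard.1 hR').1
      have h3 : ∀ S : Finset α, S ⊆ B \ A → (S ∪ A) \ A = S := by
        intro S hS
        rw [union_sdiff_right]
        exact sdiff_eq_self_of_disjoint (disjoint_left.2 fun x hx hx' => (mem_sdiff.1 (hS hx)).2 hx')
      have h4 : (R ∪ A) \ A = (R' ∪ A) \ A := by
        have h5 : R ∪ A = R' ∪ A := h
        rw [h5]
      rw [h3 R h1, h3 R' h2] at h4
      exact h4
  · intro R hR
    rw [mem_image] at hR
    obtain ⟨R', hR', rfl⟩ := hR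
    rw [mem_powersetCard] at hR'
    refine ⟨subset_union_right, union_subset (hR'.1.trans sdiff_subset) hAB, ?_⟩
    rw [card_union_of_disjoint (disjoint_left.2 fun x hx hx' => (mem_sdiff.1 (hR'.1 hx)).2 hx'),
      hR'.2]
    omega

/-- a set of the right size between two given sets -/
lemma one {k : ℕ} {A B : Finset α} (hAB : A ⊆ B) (hA : A.card ≤ k) (hB : k ≤ B.card) :
    ∃ R : Finset α, A ⊆ R ∧ R ⊆ B ∧ R.card = k :=
  exists_subsuperset_card_eq hAB hA hB

end Pool.Agent.Y413.RA
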