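import Mathlib

/-!
# A union bound for colourings (helper413)
-/

set_option autoImplicit false

namespace Pool.Agent.Y413.RA

open Finset

variable {E W : Type} [Fintype E] [DecidableEq E] [DecidableEq W]

/-- The colourings with `r` colours in which none of the pairs `(e₁ w, e₂ w)`, `w ∈ S`, gets the
colours `(i, j)`. -/
def bad (r : ℕ) (e₁ e₂ : W → E) (i j : Fin r) (S : Finset W) : Finset (E → Fin r) :=
  univ.filter fun f => ∀ w ∈ S, ¬ (f (e₁ w) = i ∧ f (e₂ w) = j)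

lemma bad_step (r : ℕ) (e₁ e₂ : W → E) (i j : Fin r) (S : Finset W) (w₀ : W)
    (h12 : e₁ w₀ ≠ e₂ w₀) (h : ∀ w ∈ S, e₁ w ≠ e₁ w₀ ∧ e₁ w ≠ e₂ w₀ ∧ e₂ w ≠ e₁ w₀ ∧ e₂ w ≠ e₂ w₀) :
    r ^ 2 * (bad r e₁ e₂ i j (insert w₀ S)).card + (bad r e₁ e₂ i j S).card ≤
      r ^ 2 * (bad r e₁ e₂ i j S).card := by
  classical
  set F := bad r e₁ e₂ i j S with hF
  set G := F.filter fun f => f (e₁ w₀) = i ∧ f (e₂ w₀) = j with hG
  have h1 : bad r e₁ e₂ i j (insert w₀ S) = F.filter fun f => ¬ (f (e₁ w₀) = i ∧ f (e₂ w₀) = j) := by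
    ext f
    simp only [hF, bad, mem_filter, mem_univ, true_and, mem_insert, forall_eq_or_imp]
    exact and_comm
  have h2 : (bad r e₁ e₂ i j (insert w₀ S)).card + G.card = F.card := by
    rw [h1, hG, add_comm]
    exact card_filter_add_card_filter_not _
  have h3 : F.card ≤ (G ×ˢ (univ : Finset (Fin r × Fin r))).card := by
    refine card_le_card_of_injOn (fun f => (Function.update (Function.update f (e₁ w₀) i) (e₂ w₀) j,
      (f (e₁ w₀), f (e₂ w₀)))) ?_ ?_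
    · intro f hf
      have hf' : f ∈ F := hf
      rw [hF, bad, mem_filter] at hf'
      have key : ∀ e, e ≠ e₁ w₀ → e ≠ e₂ w₀ →
          Function.update (Function.update f (e₁ w₀) i) (e₂ w₀) j e = f e := by
        intro e h1 h2
        rw [Function.update_of_ne h2, Function.update_of_ne h1]
      rw [mem_coe, mem_product]
      refine ⟨?_, mem_univ _⟩
      rw [hG, mem_filter]
      refine ⟨?_, ?_, ?_⟩
      · rw [hF, bad, mem_filter]
        refine ⟨mem_univ _, fun w hw => ?_⟩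
        obtain ⟨a1, a2, a3, a4⟩ := h w hw
        dsimp only
        rw [key _ a1 a2, key _ a3 a4]
        exact hf'.2 w hw
      · dsimp only
        rw [Function.update_of_ne h12, Function.update_self]
      · dsimp only
        rw [Function.update_self]
    · intro f _ g _ hfg
      have a := (Prod.mk.inj hfg).1
      have b := (Prod.mk.inj (Prod.mk.inj hfg).2).1
      have c := (Prod.mk.inj (Prod.mk.inj hfg).2).2
      funext e
      by_cases h5 : e = e₂ w₀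
      · rw [h5]; exact c
      by_cases h6 : e = e₁ w₀
      · rw [h6]; exact b
      have := congrFun a e
      rwa [Function.update_of_ne h5, Function.update_of_ne h6, Function.update_of_ne h5,
        Function.update_of_ne h6] at this
  rw [card_product, card_univ, Fintype.card_prod, Fintype.card_fin] at h3
  have h4 : F.card ≤ r ^ 2 * G.card := by nlinarith
  calc r ^ 2 * (bad r e₁ e₂ i j (insert w₀ S)).card + F.card
      ≤ r ^ 2 * (bad r e₁ e₂ i j (insert w₀ S)).card + r ^ 2 * G.card := by omega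
    _ = r ^ 2 * F.card := by rw [← h2]; ring

lemma bad_le (r : ℕ) (hr : 0 < r) (e₁ e₂ : W → E) (i j : Fin r) (S : Finset W)
    (h12 : ∀ w ∈ S, ∀ w' ∈ S, e₁ w ≠ e₂ w') (h1 : Set.InjOn e₁ S) (h2 : Set.InjOn e₂ S) :
    ((bad r e₁ e₂ i j S).card : ℝ) ≤ (1 - 1 / (r : ℝ) ^ 2) ^ S.card * (r : ℝ) ^ Fintype.card E := by
  induction S using Finset.induction_on with
  | empty =>
    rw [card_empty, pow_zero, one_mul]
    have : (bad r e₁ e₂ i j (∅ : Finset W)).card ≤ r ^ Fintype.card E := by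
      refine (card_le_univ _).trans ?_
      rw [Fintype.card_fun, Fintype.card_fin]
    exact_mod_cast this
  | insert w S hw ih =>
    have ih' := ih (fun a ha b hb => h12 a (mem_insert_of_mem ha) b (mem_insert_of_mem hb))
      (h1.mono (by simp)) (h2.mono (by simp))
    have hstep := bad_step r e₁ e₂ i j S w (h12 w (mem_insert_self _ _) w (mem_insert_self _ _))
      (fun a ha => ⟨fun h => hw (h1 (by simp [ha]) (by simp) h ▸ ha),
        h12 a (mem_insert_of_mem ha) w (mem_insert_self _ _),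
        fun h => h12 w (mem_insert_self _ _) a (mem_insert_of_mem ha) h.symm,
        fun h => hw (h2 (by simp [ha]) (by simp) h ▸ ha)⟩)
    have hr' : (0 : ℝ) < (r : ℝ) ^ 2 := by positivity
    have hstep' : (r : ℝ) ^ 2 * (bad r e₁ e₂ i j (insert w S)).card + (bad r e₁ e₂ i j S).card ≤
        (r : ℝ) ^ 2 * (bad r e₁ e₂ i j S).card := by exact_mod_cast hstep
    have h3 : ((bad r e₁ e₂ i j (insert w S)).card : ℝ) ≤
        (1 - 1 / (r : ℝ) ^ 2) * (bad r e₁ e₂ i j S).card := by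
      have h4 : (r : ℝ) ^ 2 * (bad r e₁ e₂ i j (insert w S)).card ≤
          (r : ℝ) ^ 2 * ((1 - 1 / (r : ℝ) ^ 2) * (bad r e₁ e₂ i j S).card) := by
        have h5 : (r : ℝ) ^ 2 * ((1 - 1 / (r : ℝ) ^ 2) * (bad r e₁ e₂ i j S).card) =
            (r : ℝ) ^ 2 * (bad r e₁ e₂ i j S).card - (bad r e₁ e₂ i j S).card := by
          field_simp
        rw [h5]
        linarith
      exact le_of_mul_le_mul_left h4 hr'
    have h6 : (0 : ℝ) ≤ 1 - 1 / (r : ℝ) ^ 2 := by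
      have : (1 : ℝ) ≤ (r : ℝ) ^ 2 := by
        have : (1 : ℝ) ≤ r := by exact_mod_cast hr
        nlinarith
      rw [sub_nonneg, div_le_one hr']
      exact this
    rw [card_insert_of_notMem hw, pow_succ]
    calc ((bad r e₁ e₂ i j (insert w S)).card : ℝ) ≤
        (1 - 1 / (r : ℝ) ^ 2) * (bad r e₁ e₂ i j S).card := h3
      _ ≤ (1 - 1 / (r : ℝ) ^ 2) *
          ((1 - 1 / (r : ℝ) ^ 2) ^ S.card * (r : ℝ) ^ Fintype.card E) := by gcongr
      _ = _ := by ring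

/-- The union bound: if for each `ρ` there are at least `L` pairs of edges, the pairs being disjoint,
then some colouring contains, for each `ρ`, a pair with the given colours. -/
lemma union_bound {ι : Type} [Fintype ι] (r L : ℕ) (hr : 0 < r) (e₁ e₂ : ι → W → E)
    (i j : ι → Fin r) (S : ι → Finset W) (hL : ∀ ρ, L ≤ (S ρ).card)
    (h12 : ∀ ρ, ∀ w ∈ S ρ, ∀ w' ∈ S ρ, e₁ ρ w ≠ e₂ ρ w') (h1 : ∀ ρ, Set.InjOn (e₁ ρ) (S ρ))
    (h2 : ∀ ρ, Set.InjOn (e₂ ρ) (S ρ))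
    (hlt : (Fintype.card ι : ℝ) * (1 - 1 / (r : ℝ) ^ 2) ^ L < 1) :
    ∃ f : E → Fin r, ∀ ρ, ∃ w ∈ S ρ, f (e₁ ρ w) = i ρ ∧ f (e₂ ρ w) = j ρ := by
  classical
  by_contra hcon
  push Not at hcon
  have hr' : (0 : ℝ) < (r : ℝ) ^ 2 := by positivity
  have hr1 : (1 : ℝ) ≤ (r : ℝ) ^ 2 := by
    have : (1 : ℝ) ≤ r := by exact_mod_cast hr
    nlinarith
  have h6 : (0 : ℝ) ≤ 1 - 1 / (r : ℝ) ^ 2 := by
    rw [sub_nonneg, div_le_one hr']
    exact hr1
  have h7 : 1 - 1 / (r : ℝ) ^ 2 ≤ 1 := by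
    have : 0 ≤ 1 / (r : ℝ) ^ 2 := by positivity
    linarith
  have hcover : (univ : Finset (E → Fin r)) ⊆
      univ.biUnion fun ρ : ι => bad r (e₁ ρ) (e₂ ρ) (i ρ) (j ρ) (S ρ) := by
    intro f _
    obtain ⟨ρ, hρ⟩ := hcon f
    rw [mem_biUnion]
    refine ⟨ρ, mem_univ _, ?_⟩
    rw [bad, mem_filter]
    exact ⟨mem_univ _, fun w hw h => hρ w hw h.1 h.2⟩
  have h8 := (card_le_card hcover).trans card_biUnion_le
  rw [card_univ, Fintype.card_fun, Fintype.card_fin] at h8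
  have h9 : (r : ℝ) ^ Fintype.card E ≤
      ∑ ρ : ι, ((bad r (e₁ ρ) (e₂ ρ) (i ρ) (j ρ) (S ρ)).card : ℝ) := by exact_mod_cast h8
  have h10 : ∀ ρ : ι, ((bad r (e₁ ρ) (e₂ ρ) (i ρ) (j ρ) (S ρ)).card : ℝ) ≤
      (1 - 1 / (r : ℝ) ^ 2) ^ L * (r : ℝ) ^ Fintype.card E := by
    intro ρ
    refine (bad_le r hr (e₁ ρ) (e₂ ρ) (i ρ) (j ρ) (S ρ) (h12 ρ) (h1 ρ) (h2 ρ)).trans ?_
    have := pow_le_pow_of_le_one h6 h7 (hL ρ)
    gcongr
  have h11 : (r : ℝ) ^ Fintype.card E ≤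
      (Fintype.card ι : ℝ) * ((1 - 1 / (r : ℝ) ^ 2) ^ L * (r : ℝ) ^ Fintype.card E) := by
    refine h9.trans ((sum_le_sum fun ρ _ => h10 ρ).trans ?_)
    rw [sum_const, card_univ, nsmul_eq_mul]
  have h12 : (0 : ℝ) < (r : ℝ) ^ Fintype.card E := by positivity
  have h13 : (Fintype.card ι : ℝ) * ((1 - 1 / (r : ℝ) ^ 2) ^ L * (r : ℝ) ^ Fintype.card E) <
      1 * (r : ℝ) ^ Fintype.card E := by
    rw [← mul_assoc]
    exact mul_lt_mul_of_pos_right hlt h12
  linarith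

/-- The numerical estimate. -/
lemma estimate (r : ℕ) (hr : 0 < r) : ∃ K : ℕ, (r = 1 → K = 3) ∧ 3 ≤ K ∧ ∀ k, K ≤ k →
    (3 * (r : ℝ) ^ 2 * (2 * k * (3 * k).choose k : ℕ) ^ 2) * (1 - 1 / (r : ℝ) ^ 2) ^ (2 ^ (k - 3)) <
      1 := by
  rcases Nat.lt_or_ge 1 r with hr1 | hr1
  · set q : ℝ := 1 - 1 / (r : ℝ) ^ 2 with hq
    have hrR : (1 : ℝ) < (r : ℝ) := by exact_mod_cast hr1
    have hr2 : (1 : ℝ) < (r : ℝ) ^ 2 := by nlinarith
    have hq0 : 0 ≤ q := by
      rw [hq, sub_nonneg, div_le_one (by linarith)]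
      exact hr2.le
    have hq1 : q < 1 := by
      have : 0 < 1 / (r : ℝ) ^ 2 := by positivity
      rw [hq]
      linarith
    obtain ⟨M, hM⟩ := exists_pow_lt_of_lt_one (show (0 : ℝ) < 1 / 512 by norm_num) hq1
    obtain ⟨K1, hK1⟩ := exists_pow_lt_of_lt_one
      (show (0 : ℝ) < 1 / (12 * (r : ℝ) ^ 2) by positivity) (show (1 / 2 : ℝ) < 1 by norm_num)
    -- `2 ^ (k - 3) ≥ M * k` for large `k`
    have hgrow : ∀ k, 8 * M + 8 * M + 16 ≤ k → M * k ≤ 2 ^ (k - 3) := by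
      intro k hk
      obtain ⟨n, rfl⟩ : ∃ n, k = n + 3 := ⟨k - 3, by omega⟩
      have h1 : ∀ m : ℕ, m < 2 ^ m := fun m => Nat.lt_two_pow_self
      have h2 : n + 3 - 3 = n := by omega
      rw [h2]
      obtain ⟨m, c, a, hm, hmc, hc1, ha, hMa⟩ : ∃ m c a, n = m + c ∧ m ≤ c ∧ c ≤ m + 1 ∧ 4 * a ≤ m ∧
          M ≤ a := ⟨n / 2, n - n / 2, n / 8, by omega, by omega, by omega, by omega, by omega⟩
      have e1 := h1 m
      have e2 := h1 c
      have h3 : 3 ≤ n := by omega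
      calc M * (n + 3) ≤ a * (2 * n) := Nat.mul_le_mul hMa (by omega)
        _ = (2 * a) * (m + c) := by rw [hm]; ring
        _ ≤ (2 * a) * (2 * c) := Nat.mul_le_mul le_rfl (by omega)
        _ = (4 * a) * c := by ring
        _ ≤ 2 ^ m * 2 ^ c := Nat.mul_le_mul (by omega) e2.le
        _ = 2 ^ n := by rw [← pow_add, ← hm]
    refine ⟨max (8 * M + 8 * M + 16) K1, by omega, by omega, fun k hk => ?_⟩
    have hkM := (le_max_left _ _).trans hk
    have hkK := (le_max_right (8 * M + 8 * M + 16) K1).trans hk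
    have h1 : q ^ (2 ^ (k - 3)) ≤ q ^ (M * k) :=
      pow_le_pow_of_le_one hq0 hq1.le (hgrow k hkM)
    have h2 : q ^ (M * k) ≤ (1 / 512 : ℝ) ^ k := by
      rw [pow_mul]
      exact pow_le_pow_left₀ (pow_nonneg hq0 _) hM.le _
    have h3 : (2 * k * (3 * k).choose k : ℕ) ≤ 2 * 16 ^ k := by
      have a1 : (3 * k).choose k ≤ 2 ^ (3 * k) := Nat.choose_le_two_pow _ _
      have a2 : k ≤ 2 ^ k := Nat.lt_two_pow_self.le
      calc 2 * k * (3 * k).choose k ≤ 2 * 2 ^ k * 2 ^ (3 * k) := by gcongr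
        _ = 2 * 16 ^ k := by
            rw [mul_assoc, ← pow_add, show k + 3 * k = 4 * k by ring, pow_mul]
            norm_num
    have h4 : ((2 * k * (3 * k).choose k : ℕ) : ℝ) ^ 2 ≤ 4 * 256 ^ k := by
      have : ((2 * k * (3 * k).choose k : ℕ) : ℝ) ≤ 2 * 16 ^ k := by exact_mod_cast h3
      calc ((2 * k * (3 * k).choose k : ℕ) : ℝ) ^ 2 ≤ (2 * 16 ^ k) ^ 2 := by gcongr
        _ = 4 * 256 ^ k := by
            rw [mul_pow, ← pow_mul, mul_comm k 2, pow_mul]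
            norm_num
    have h5 : (1 / 2 : ℝ) ^ k < 1 / (12 * (r : ℝ) ^ 2) :=
      (pow_le_pow_of_le_one (by norm_num) (by norm_num) hkK).trans_lt hK1
    calc (3 * (r : ℝ) ^ 2 * (2 * k * (3 * k).choose k : ℕ) ^ 2) * q ^ (2 ^ (k - 3))
        ≤ (3 * (r : ℝ) ^ 2 * (4 * 256 ^ k)) * (1 / 512 : ℝ) ^ k := by
          have h6 : q ^ (2 ^ (k - 3)) ≤ (1 / 512 : ℝ) ^ k := h1.trans h2
          have h7 : (0 : ℝ) ≤ q ^ (2 ^ (k - 3)) := pow_nonneg hq0 _
          gcongr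
      _ = 12 * (r : ℝ) ^ 2 * (1 / 2 : ℝ) ^ k := by
          have : (1 / 2 : ℝ) ^ k = 256 ^ k * (1 / 512 : ℝ) ^ k := by
            rw [← mul_pow]
            norm_num
          rw [this]
          ring
      _ < 12 * (r : ℝ) ^ 2 * (1 / (12 * (r : ℝ) ^ 2)) := by
          have : (0 : ℝ) < 12 * (r : ℝ) ^ 2 := by positivity
          exact mul_lt_mul_of_pos_left h5 this
      _ = 1 := by field_simp
  · have h1 : r = 1 := by omega
    subst h1
    refine ⟨3, fun _ => rfl, le_refl _, fun k _ => ?_⟩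
    have h2 : (2 : ℕ) ^ (k - 3) ≠ 0 := by positivity
    have h3 : (1 - 1 / ((1 : ℕ) : ℝ) ^ 2) = 0 := by norm_num
    rw [h3, zero_pow h2, mul_zero]
    exact one_pos

end Pool.Agent.Y413.RA
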