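import Pool.Agent.Y413.RA.Wit2
import Pool.Agent.Y413.RA.Rand

/-!
# The colouring with `r` colours `a` (helper413)
-/

set_option autoImplicit false

namespace Pool.Agent.Y413.RA

open Finset

/-- the points -/
def Pt (k : ℕ) : Type := {p : Finset (Fin (3 * k)) × Fin (3 * k) // p.1.card = k ∧ p.2 ∉ p.1}

instance (k : ℕ) : DecidableEq (Pt k) := by unfold Pt; infer_instance

instance (k : ℕ) : Fintype (Pt k) := by unfold Pt; infer_instance

lemma card_Pt (k : ℕ) : Fintype.card (Pt k) = 2 * k * (3 * k).choose k := by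
  unfold Pt
  rw [Fintype.card_subtype]
  rw [card_eq_sum_card_fiberwise (f := Prod.fst) (t := powersetCard k univ)
    (fun p hp => by
      have h : p ∈ univ.filter fun p : Finset (Fin (3 * k)) × Fin (3 * k) =>
        p.1.card = k ∧ p.2 ∉ p.1 := hp
      rw [mem_filter] at h
      exact mem_coe.2 (mem_powersetCard.2 ⟨subset_univ _, h.2.1⟩))]
  have h : ∀ T ∈ powersetCard k (univ : Finset (Fin (3 * k))),
      (((univ.filter fun p : Finset (Fin (3 * k)) × Fin (3 * k) =>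
        p.1.card = k ∧ p.2 ∉ p.1)).filter fun p => p.1 = T).card = 2 * k := by
    intro T hT
    have hT' := (mem_powersetCard.1 hT).2
    have h1 : (((univ.filter fun p : Finset (Fin (3 * k)) × Fin (3 * k) =>
        p.1.card = k ∧ p.2 ∉ p.1)).filter fun p => p.1 = T) = Tᶜ.image fun x => (T, x) := by
      ext ⟨R, z⟩
      simp only [mem_filter, mem_univ, true_and, mem_image, mem_compl, Prod.mk.injEq]
      constructor
      · rintro ⟨⟨h1, h2⟩, rfl⟩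
        exact ⟨z, h2, rfl, rfl⟩
      · rintro ⟨x, h1, rfl, rfl⟩
        exact ⟨⟨hT', h1⟩, rfl⟩
    rw [h1, card_image_of_injective _ (fun x y h => (Prod.mk.inj h).2), card_compl, hT',
      Fintype.card_fin]
    omega
  rw [sum_congr rfl h, sum_const, card_powersetCard, card_univ, Fintype.card_fin, smul_eq_mul]
  ring

lemma ok {k : ℕ} (p : Pt k) : OK k p.1 := p.2

lemma card_of_many {k : ℕ} {P : Finset (Fin (3 * k)) × Fin (3 * k) → Prop} (h : Many k P)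
    (S : Finset (Pt k)) (hS : ∀ w : Pt k, P w.1 → w ∈ S) : 2 ^ (k - 3) ≤ S.card := by
  classical
  obtain ⟨F, z, hF, hR⟩ := h
  refine hF.trans ?_
  rw [← card_attach]
  refine card_le_card_of_injOn (fun R => (⟨(R.1, z), (hR R.1 R.2).1⟩ : Pt k)) ?_ ?_
  · intro R _
    exact hS _ (hR R.1 R.2).2
  · intro R _ R' _ h
    have h1 := congrArg (fun p : Pt k => p.1.1) h
    exact Subtype.ext h1

/-- the kinds of the second edge -/
def kind {k : ℕ} (t : Fin 3) (p q : Finset (Fin (3 * k)) × Fin (3 * k)) : Prop :=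
  (t = 0 → AA p q) ∧ (t = 1 → BB p q) ∧ (t = 2 → CC p q)

/-- the colouring of the edges of colour `a` -/
lemma exists_colouring (r : ℕ) (hr : 0 < r) (k : ℕ) (hk : 3 ≤ k)
    (hlt : (3 * (r : ℝ) ^ 2 * (2 * k * (3 * k).choose k : ℕ) ^ 2) *
      (1 - 1 / (r : ℝ) ^ 2) ^ (2 ^ (k - 3)) < 1) :
    ∃ f : Sym2 (Pt k) → Fin r, ∀ u v : Pt k, u ≠ v → ∀ i j : Fin r,
      (∃ w : Pt k, AA u.1 w.1 ∧ AA w.1 v.1 ∧ f s(u, w) = i ∧ f s(w, v) = j) ∧
      (∃ w : Pt k, AA u.1 w.1 ∧ BB w.1 v.1 ∧ f s(u, w) = i) ∧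
      (∃ w : Pt k, AA u.1 w.1 ∧ CC w.1 v.1 ∧ f s(u, w) = i) := by
  classical
  have hα : Fintype.card (Fin (3 * k)) = 3 * k := Fintype.card_fin _
  let ι : Type := {p : Pt k × Pt k // p.1 ≠ p.2} × (Fin r × Fin r) × Fin 3
  have hcardι : (Fintype.card ι : ℝ) ≤ 3 * (r : ℝ) ^ 2 * (2 * k * (3 * k).choose k : ℕ) ^ 2 := by
    have h1 : Fintype.card {p : Pt k × Pt k // p.1 ≠ p.2} ≤ (2 * k * (3 * k).choose k) ^ 2 := by
      refine (Fintype.card_subtype_le _).trans ?_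
      rw [Fintype.card_prod, card_Pt]
      exact (sq _).ge
    have h2 : Fintype.card ι ≤ (2 * k * (3 * k).choose k) ^ 2 * (r * r * 3) := by
      have : Fintype.card ι = Fintype.card {p : Pt k × Pt k // p.1 ≠ p.2} * (r * r * 3) := by
        simp only [ι, Fintype.card_prod, Fintype.card_fin]
      rw [this]
      exact Nat.mul_le_mul_right _ h1
    have h3 : (Fintype.card ι : ℝ) ≤ ((2 * k * (3 * k).choose k : ℕ) : ℝ) ^ 2 * (r * r * 3) := by
      exact_mod_cast h2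
    refine h3.trans (le_of_eq ?_)
    ring
  let e₁ : ι → Pt k → Sym2 (Pt k) ⊕ Pt k := fun ρ w => Sum.inl s(ρ.1.1.1, w)
  let e₂ : ι → Pt k → Sym2 (Pt k) ⊕ Pt k :=
    fun ρ w => if ρ.2.2 = 0 then Sum.inl s(w, ρ.1.1.2) else Sum.inr w
  let S : ι → Finset (Pt k) :=
    fun ρ => univ.filter fun w : Pt k => AA ρ.1.1.1.1 w.1 ∧ kind ρ.2.2 w.1 ρ.1.1.2.1
  have hL : ∀ ρ, 2 ^ (k - 3) ≤ (S ρ).card := by
    rintro ⟨⟨⟨u, v⟩, huv⟩, ⟨i, j⟩, t⟩
    have huv' : u.1 ≠ v.1 := fun h => huv (Subtype.ext h)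
    have h3 : t = 0 ∨ t = 1 ∨ t = 2 := by fin_cases t <;> simp
    rcases h3 with rfl | rfl | rfl
    · refine card_of_many (wit_aa hk hα (ok u) (ok v)) _ fun w hw => ?_
      exact mem_filter.2 ⟨mem_univ _, hw.1, fun _ => hw.2,
        fun h => absurd h (show (0 : Fin 3) ≠ 1 by decide),
        fun h => absurd h (show (0 : Fin 3) ≠ 2 by decide)⟩
    · refine card_of_many (wit_ab hk hα (ok u) (ok v) huv') _ fun w hw => ?_
      exact mem_filter.2 ⟨mem_univ _, hw.1, fun h => absurd h (show (1 : Fin 3) ≠ 0 by decide),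
        fun _ => hw.2, fun h => absurd h (show (1 : Fin 3) ≠ 2 by decide)⟩
    · refine card_of_many (wit_ac hk hα (ok u) (ok v) huv') _ fun w hw => ?_
      exact mem_filter.2 ⟨mem_univ _, hw.1, fun h => absurd h (show (2 : Fin 3) ≠ 0 by decide),
        fun h => absurd h (show (2 : Fin 3) ≠ 1 by decide), fun _ => hw.2⟩
  have h12 : ∀ ρ, ∀ w ∈ S ρ, ∀ w' ∈ S ρ, e₁ ρ w ≠ e₂ ρ w' := by
    rintro ⟨⟨⟨u, v⟩, huv⟩, ⟨i, j⟩, t⟩ w hw w' hw' h
    simp only [S, e₁, e₂] at h hw hw'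
    rw [mem_filter] at hw hw'
    split_ifs at h with ht
    rcases Sym2.eq_iff.1 (Sum.inl_injective h) with ⟨h1, -⟩ | ⟨h1, -⟩
    · exact hw'.2.1.1 (congrArg Subtype.val h1)
    · exact huv h1
  have h1 : ∀ ρ, Set.InjOn (e₁ ρ) (S ρ) := by
    rintro ⟨⟨⟨u, v⟩, huv⟩, ⟨i, j⟩, t⟩ w _ w' _ h
    have h1 := Sum.inl_injective h
    exact (Sym2.congr_right).1 h1
  have h2 : ∀ ρ, Set.InjOn (e₂ ρ) (S ρ) := by
    rintro ⟨⟨⟨u, v⟩, huv⟩, ⟨i, j⟩, t⟩ w _ w' _ h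
    simp only [e₂] at h
    split_ifs at h with ht
    · exact (Sym2.congr_left).1 (Sum.inl_injective h)
    · exact Sum.inr_injective h
  have hlt' : (Fintype.card ι : ℝ) * (1 - 1 / (r : ℝ) ^ 2) ^ (2 ^ (k - 3)) < 1 := by
    refine lt_of_le_of_lt (mul_le_mul_of_nonneg_right hcardι (pow_nonneg ?_ _)) hlt
    have hr1 : (1 : ℝ) ≤ (r : ℝ) ^ 2 := by
      have : (1 : ℝ) ≤ r := by exact_mod_cast hr
      nlinarith
    rw [sub_nonneg, div_le_one (by linarith)]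
    exact hr1
  obtain ⟨f, hf⟩ := union_bound r (2 ^ (k - 3)) hr e₁ e₂
    (fun ρ => ρ.2.1.1) (fun ρ => if ρ.2.2 = 0 then ρ.2.1.2 else ⟨0, hr⟩) S hL h12 h1 h2 hlt'
  have key : ∀ (u v : Pt k) (huv : u ≠ v) (i j : Fin r) (t : Fin 3), ∃ w : Pt k,
      AA u.1 w.1 ∧ kind t w.1 v.1 ∧ f (Sum.inl s(u, w)) = i ∧
        (t = 0 → f (Sum.inl s(w, v)) = j) := by
    intro u v huv i j t
    obtain ⟨w, hw, h1, h2⟩ := hf (⟨(u, v), huv⟩, (i, j), t)
    rw [mem_filter] at hw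
    refine ⟨w, hw.2.1, hw.2.2, h1, fun ht => ?_⟩
    simp only [e₂, ht, if_true] at h2
    exact h2
  refine ⟨fun e => f (Sum.inl e), fun u v huv i j => ⟨?_, ?_, ?_⟩⟩
  · obtain ⟨w, h1, h2, h3, h4⟩ := key u v huv i j 0
    exact ⟨w, h1, h2.1 rfl, h3, h4 rfl⟩
  · obtain ⟨w, h1, h2, h3, -⟩ := key u v huv i j 1
    exact ⟨w, h1, h2.2.1 rfl, h3⟩
  · obtain ⟨w, h1, h2, h3, -⟩ := key u v huv i j 2
    exact ⟨w, h1, h2.2.2 rfl, h3⟩

end Pool.Agent.Y413.RA
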