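import Pool.Agent.Y413.RA.Base

/-!
# The witnesses (helper413)
-/

set_option autoImplicit false

namespace Pool.Agent.Y413.RA

open Finset

variable {α : Type} [Fintype α] [DecidableEq α]

/-- exponentially many admissible pairs with the same second entry satisfy `P` -/
def Many (k : ℕ) (P : Finset α × α → Prop) : Prop :=
  ∃ (F : Finset (Finset α)) (z : α), 2 ^ (k - 3) ≤ F.card ∧ ∀ R ∈ F, OK k (R, z) ∧ P (R, z)

lemma many_mk {k : ℕ} {P : Finset α × α → Prop} (z : α) (A X : Finset α) (hAX : Disjoint A X)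
    (hA : A.card ≤ k) (hA3 : A.card ≤ 3) (hB : 2 * k + X.card ≤ Fintype.card α + A.card)
    (h : ∀ R : Finset α, A ⊆ R → Disjoint R X → R.card = k → OK k (R, z) ∧ P (R, z)) :
    Many k P := by
  have h1 : A ⊆ Xᶜ := subset_compl_iff_disjoint_right.2 hAX
  obtain ⟨F, hF, hR⟩ := many h1 hA hA3 (by rw [card_compl]; omega)
  exact ⟨F, z, hF, fun R hR' => h R (hR R hR').1
    (subset_compl_iff_disjoint_right.1 (hR R hR').2.1) (hR R hR').2.2⟩

lemma one_mk {k : ℕ} {P : Finset α × α → Prop} (z : α) (A X : Finset α) (hAX : Disjoint A X)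
    (hA : A.card ≤ k) (hB : k + X.card ≤ Fintype.card α)
    (h : ∀ R : Finset α, A ⊆ R → Disjoint R X → R.card = k → OK k (R, z) ∧ P (R, z)) :
    ∃ w, OK k w ∧ P w := by
  have h1 : A ⊆ Xᶜ := subset_compl_iff_disjoint_right.2 hAX
  obtain ⟨R, h2, h3, h4⟩ := exists_subsuperset_card_eq h1 hA
    (by rw [card_compl]; omega : k ≤ Xᶜ.card)
  exact ⟨(R, z), h R h2 (subset_compl_iff_disjoint_right.1 h3) h4⟩

omit [Fintype α] in
lemma card2 (a b : α) : ({a, b} : Finset α).card ≤ 2 := card_le_two

omit [Fintype α] in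
lemma card3 (a b c : α) : ({a, b, c} : Finset α).card ≤ 3 := card_le_three

omit [Fintype α] in
lemma exists_ne {k : ℕ} {S : Finset α} (hS : S.card = k) (hk : 3 ≤ k) (x y : α) :
    ∃ s ∈ S, s ≠ x ∧ s ≠ y := by
  have h : (({x, y} : Finset α)).card < S.card := lt_of_le_of_lt (card2 x y) (by omega)
  obtain ⟨s, hs, hs'⟩ := exists_mem_notMem_of_card_lt_card h
  simp only [mem_insert, mem_singleton, not_or] at hs'
  exact ⟨s, hs, hs'.1, hs'.2⟩

/-- witnesses `(a, a)` -/
lemma wit_aa {k : ℕ} (hk : 3 ≤ k) (hα : Fintype.card α = 3 * k) {p q : Finset α × α}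
    (hp : OK k p) (hq : OK k q) : Many k fun w => AA p w ∧ AA w q := by
  obtain ⟨T, x⟩ := p
  obtain ⟨S, y⟩ := q
  obtain ⟨hT, hx⟩ := hp
  obtain ⟨hS, hy⟩ := hq
  simp only at hT hx hS hy
  obtain ⟨t, ht, hty, -⟩ := exists_ne hT hk y y
  obtain ⟨s, hs, hsx, -⟩ := exists_ne hS hk x x
  have htx : t ≠ x := fun h => hx (h ▸ ht)
  have hsy : s ≠ y := fun h => hy (h ▸ hs)
  obtain ⟨z, hz⟩ : ∃ z : α, z ∉ (({x, y, t, s} : Finset α)) := by
    by_contra hcon
    push Not at hcon
    have h1 : (univ : Finset α) ⊆ {x, y, t, s} := fun z _ => hcon z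
    have h2 := card_le_card h1
    have h3 : ({x, y, t, s} : Finset α).card ≤ 4 := card_le_four
    rw [card_univ] at h2
    omega
  simp only [mem_insert, mem_singleton, not_or] at hz
  obtain ⟨hzx, hzy, hzt, hzs⟩ := hz
  refine many_mk z {t, s} {x, y, z} ?_ ?_ ?_ ?_ ?_
  · rw [disjoint_left]
    intro u hu hu'
    simp only [mem_insert, mem_singleton] at hu hu'
    rcases hu with rfl | rfl <;> rcases hu' with rfl | rfl | rfl <;> tauto
  · exact (card2 _ _).trans (by omega)
  · exact (card2 _ _).trans (by omega)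
  · have := card3 x y z
    omega
  · intro R hR hRX hRk
    have hxR : x ∉ R := fun h => disjoint_left.1 hRX h (by simp)
    have hyR : y ∉ R := fun h => disjoint_left.1 hRX h (by simp)
    have hzR : z ∉ R := fun h => disjoint_left.1 hRX h (by simp)
    have htR : t ∈ R := hR (by simp)
    have hsR : s ∈ R := hR (by simp)
    have d1 : ¬ Disjoint T R := fun h => disjoint_left.1 h ht htR
    have d2 : ¬ Disjoint S R := fun h => disjoint_left.1 h hs hsR
    refine ⟨⟨hRk, hzR⟩, ⟨fun h => hzx (Prod.mk.inj h).2.symm, ?_, fun h => d1 h.1⟩,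
      AA_symm ⟨fun h => hzy (Prod.mk.inj h).2.symm, ?_, fun h => d2 h.1⟩⟩
    · rintro (⟨h1, -, -⟩ | ⟨h1, -⟩)
      · exact hxR h1
      · exact d1 h1
    · rintro (⟨h1, -, -⟩ | ⟨h1, -⟩)
      · exact hyR h1
      · exact d2 h1

/-- witnesses `(a, b)` -/
lemma wit_ab {k : ℕ} (hk : 3 ≤ k) (hα : Fintype.card α = 3 * k) {p q : Finset α × α}
    (hp : OK k p) (hq : OK k q) (hpq : p ≠ q) : Many k fun w => AA p w ∧ BB w q := by
  obtain ⟨T, x⟩ := p
  obtain ⟨S, y⟩ := q
  obtain ⟨hT, hx⟩ := hp
  obtain ⟨hS, hy⟩ := hq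
  simp only at hT hx hS hy
  by_cases hxy : x = y
  · subst hxy
    have hTS : T ≠ S := fun h => hpq (by rw [h])
    obtain ⟨z, hzS, hzT⟩ : ∃ z ∈ S, z ∉ T := by
      by_contra hcon
      push Not at hcon
      exact hTS (eq_of_subset_of_card_le hcon (by omega)).symm
    obtain ⟨s, hs, hsz, -⟩ := exists_ne hS hk z z
    obtain ⟨t, ht, -, -⟩ := exists_ne hT hk z z
    have hxz : x ≠ z := fun h => hy (h ▸ hzS)
    have htz : t ≠ z := fun h => hzT (h ▸ ht)
    refine many_mk z {x, s, t} {z} ?_ ?_ ?_ ?_ ?_
    · rw [disjoint_left]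
      intro u hu hu'
      simp only [mem_insert, mem_singleton] at hu hu'
      rcases hu with rfl | rfl | rfl <;> tauto
    · exact (card3 _ _ _).trans (by omega)
    · exact card3 _ _ _
    · rw [card_singleton]
      omega
    · intro R hR hRX hRk
      have hzR : z ∉ R := fun h => disjoint_left.1 hRX h (by simp)
      have hxR : x ∈ R := hR (by simp)
      have htR : t ∈ R := hR (by simp)
      have hsR : s ∈ R := hR (by simp)
      have d1 : ¬ Disjoint T R := fun h => disjoint_left.1 h ht htR
      have d2 : ¬ Disjoint R S := fun h => disjoint_left.1 h hsR hs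
      refine ⟨⟨hRk, hzR⟩, ⟨fun h => hxz (Prod.mk.inj h).2, ?_, fun h => d1 h.1⟩,
        Or.inl ⟨hzS, hxR, d2⟩⟩
      rintro (⟨-, h1, -⟩ | ⟨h1, -⟩)
      · exact hzT h1
      · exact d1 h1
  · obtain ⟨z, hzS, hzx, -⟩ := exists_ne hS hk x x
    obtain ⟨s, hs, hsz, hsx⟩ := exists_ne hS hk z x
    obtain ⟨t, ht, htz, -⟩ := exists_ne hT hk z z
    have htx : t ≠ x := fun h => hx (h ▸ ht)
    have hyz : y ≠ z := fun h => hy (h ▸ hzS)
    refine many_mk z {y, s, t} {z, x} ?_ ?_ ?_ ?_ ?_
    · rw [disjoint_left]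
      intro u hu hu'
      simp only [mem_insert, mem_singleton] at hu hu'
      rcases hu with rfl | rfl | rfl <;> rcases hu' with rfl | rfl <;> tauto
    · exact (card3 _ _ _).trans (by omega)
    · exact card3 _ _ _
    · have := card2 z x
      omega
    · intro R hR hRX hRk
      have hzR : z ∉ R := fun h => disjoint_left.1 hRX h (by simp)
      have hxR : x ∉ R := fun h => disjoint_left.1 hRX h (by simp)
      have hyR : y ∈ R := hR (by simp)
      have htR : t ∈ R := hR (by simp)
      have hsR : s ∈ R := hR (by simp)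
      have d1 : ¬ Disjoint T R := fun h => disjoint_left.1 h ht htR
      have d2 : ¬ Disjoint R S := fun h => disjoint_left.1 h hsR hs
      refine ⟨⟨hRk, hzR⟩, ⟨fun h => hzx (Prod.mk.inj h).2.symm, ?_, fun h => d1 h.1⟩,
        Or.inl ⟨hzS, hyR, d2⟩⟩
      rintro (⟨h1, -, -⟩ | ⟨h1, -⟩)
      · exact hxR h1
      · exact d1 h1

/-- witnesses `(a, c)` -/
lemma wit_ac {k : ℕ} (hk : 3 ≤ k) (hα : Fintype.card α = 3 * k) {p q : Finset α × α}
    (hp : OK k p) (hq : OK k q) (hpq : p ≠ q) : Many k fun w => AA p w ∧ CC w q := by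
  obtain ⟨T, x⟩ := p
  obtain ⟨S, y⟩ := q
  obtain ⟨hT, hx⟩ := hp
  obtain ⟨hS, hy⟩ := hq
  simp only at hT hx hS hy
  by_cases hTS : T ⊆ insert y S
  · by_cases hTS' : T = S
    · -- `T = S`
      subst hTS'
      have hxy : x ≠ y := fun h => hpq (by rw [h])
      obtain ⟨s, hs⟩ : ∃ s : α, s ∉ insert x (insert y T) := by
        by_contra hcon
        push Not at hcon
        have h1 : (univ : Finset α) ⊆ insert x (insert y T) := fun z _ => hcon z
        have h2 := card_le_card h1
        have h3 := card_insert_le x (insert y T)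
        have h4 := card_insert_le y T
        rw [card_univ] at h2
        omega
      simp only [mem_insert, not_or] at hs
      refine many_mk y {x, s} (insert y T) ?_ ?_ ?_ ?_ ?_
      · rw [disjoint_left]
        intro u hu hu'
        simp only [mem_insert, mem_singleton] at hu hu'
        rcases hu with rfl | rfl <;> rcases hu' with h | h <;> tauto
      · exact (card2 _ _).trans (by omega)
      · exact (card2 _ _).trans (by omega)
      · have h1 := card_insert_le y T
        have h2 : ({x, s} : Finset α).card = 2 := card_pair (fun h => hs.1 h.symm)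
        omega
      · intro R hR hRX hRk
        have hyR : y ∉ R := fun h => disjoint_left.1 hRX h (by simp)
        have hxR : x ∈ R := hR (by simp)
        have d1 : Disjoint T R := by
          rw [disjoint_left]
          intro u hu hu'
          exact disjoint_left.1 hRX hu' (mem_insert_of_mem hu)
        refine ⟨⟨hRk, hyR⟩, ⟨fun h => hxy (Prod.mk.inj h).2, ?_, ?_⟩, ⟨d1.symm, Or.inl rfl⟩⟩
        · rintro (⟨-, -, h1⟩ | ⟨-, -, h1, -⟩)
          · exact h1 d1
          · exact h1 hxR
        · rintro ⟨-, h1 | ⟨-, h1⟩⟩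
          · exact hxy h1
          · exact hy h1
    · -- `T ⊆ S ∪ {y}`, `T ≠ S`
      have hyT : y ∈ T := by
        by_contra hcon
        apply hTS'
        refine eq_of_subset_of_card_le (fun u hu => ?_) (by omega)
        rcases mem_insert.1 (hTS hu) with h | h
        · exact absurd (h ▸ hu) hcon
        · exact h
      have hxy : x ≠ y := fun h => hx (h ▸ hyT)
      have hcard : (insert x (insert y S)).card ≤ k + 2 := by
        have h3 := card_insert_le x (insert y S)
        have h4 := card_insert_le y S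
        omega
      obtain ⟨s, hs, s', hs', hss⟩ : ∃ s ∈ (insert x (insert y S))ᶜ,
          ∃ s' ∈ (insert x (insert y S))ᶜ, s ≠ s' := by
        have h1 : 1 < ((insert x (insert y S))ᶜ).card := by
          rw [card_compl]
          omega
        obtain ⟨s, hs, s', hs', h⟩ := one_lt_card.1 h1
        exact ⟨s, hs, s', hs', h⟩
      rw [mem_compl] at hs hs'
      refine many_mk y {s, s'} (insert x (insert y S)) ?_ ?_ ?_ ?_ ?_
      · rw [disjoint_left]
        intro u hu hu'
        simp only [mem_insert, mem_singleton] at hu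
        rcases hu with rfl | rfl
        · exact hs hu'
        · exact hs' hu'
      · exact (card2 _ _).trans (by omega)
      · exact (card2 _ _).trans (by omega)
      · have h2 : ({s, s'} : Finset α).card = 2 := card_pair hss
        omega
      · intro R hR hRX hRk
        have hyR : y ∉ R := fun h => disjoint_left.1 hRX h (by simp)
        have hxR : x ∉ R := fun h => disjoint_left.1 hRX h (by simp)
        have d2 : Disjoint R S := by
          rw [disjoint_left]
          intro u hu hu'
          exact disjoint_left.1 hRX hu (by simp [hu'])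
        have d1 : Disjoint T R := by
          rw [disjoint_left]
          intro u hu hu'
          exact disjoint_left.1 hRX hu' (mem_insert_of_mem (hTS hu))
        refine ⟨⟨hRk, hyR⟩, ⟨fun h => hxy (Prod.mk.inj h).2, ?_, ?_⟩, ⟨d2, Or.inl rfl⟩⟩
        · rintro (⟨h1, -, -⟩ | ⟨-, -, -, h1⟩)
          · exact hxR h1
          · exact h1 hyT
        · rintro ⟨-, h1 | ⟨h1, -⟩⟩
          · exact hxy h1
          · exact hxR h1
  · obtain ⟨t, ht, ht'⟩ := not_subset.1 hTS
    have htx : t ≠ x := fun h => hx (h ▸ ht)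
    have hcard : (insert x (insert y S)).card ≤ k + 2 := by
      have h3 := card_insert_le x (insert y S)
      have h4 := card_insert_le y S
      omega
    obtain ⟨s, hs⟩ : ∃ s : α, s ∉ T ∪ insert x (insert y S) := by
      by_contra hcon
      push Not at hcon
      have h1 : (univ : Finset α) ⊆ T ∪ insert x (insert y S) := fun z _ => hcon z
      have h2 := card_le_card h1
      have h3 := card_union_le T (insert x (insert y S))
      rw [card_univ] at h2
      omega
    rw [mem_union, not_or] at hs
    have hst : t ≠ s := fun h => hs.1 (h ▸ ht)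
    refine many_mk y {t, s} (insert x (insert y S)) ?_ ?_ ?_ ?_ ?_
    · rw [disjoint_left]
      intro u hu hu'
      simp only [mem_insert, mem_singleton] at hu
      rcases hu with rfl | rfl
      · rcases mem_insert.1 hu' with h | h
        · exact htx h
        · exact ht' h
      · exact hs.2 hu'
    · exact (card2 _ _).trans (by omega)
    · exact (card2 _ _).trans (by omega)
    · have h2 : ({t, s} : Finset α).card = 2 := card_pair hst
      omega
    · intro R hR hRX hRk
      have hyR : y ∉ R := fun h => disjoint_left.1 hRX h (by simp)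
      have hxR : x ∉ R := fun h => disjoint_left.1 hRX h (by simp)
      have htR : t ∈ R := hR (by simp)
      have hsR : s ∈ R := hR (by simp)
      have d1 : ¬ Disjoint T R := fun h => disjoint_left.1 h ht htR
      have d2 : Disjoint R S := by
        rw [disjoint_left]
        intro u hu hu'
        exact disjoint_left.1 hRX hu (by simp [hu'])
      refine ⟨⟨hRk, hyR⟩, ⟨fun h => hs.1 ((Prod.mk.inj h).1 ▸ hsR), ?_, fun h => d1 h.1⟩,
        ⟨d2, Or.inl rfl⟩⟩
      rintro (⟨h1, -, -⟩ | ⟨h1, -⟩)
      · exact hxR h1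
      · exact d1 h1

end Pool.Agent.Y413.RA
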