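import Pool.Agent.Y413.RA.Wit

/-!
# The remaining witnesses (helper413)
-/

set_option autoImplicit false

namespace Pool.Agent.Y413.RA

open Finset

variable {α : Type} [Fintype α] [DecidableEq α]

omit [Fintype α] in
lemma exists_ne1 {S : Finset α} (hS : 1 < S.card) (x : α) : ∃ s ∈ S, s ≠ x := by
  obtain ⟨s, hs, hs'⟩ := exists_mem_notMem_of_card_lt_card
    (show ({x} : Finset α).card < S.card by rw [card_singleton]; exact hS)
  simp only [mem_singleton] at hs'
  exact ⟨s, hs, hs'⟩

/-- witnesses `(b, b)` for the colour `b` -/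
lemma wit_bb_b {k : ℕ} (hk : 3 ≤ k) (hα : Fintype.card α = 3 * k) {p q : Finset α × α}
    (hp : OK k p) (hq : OK k q) (h : BB p q) : ∃ w, OK k w ∧ BB p w ∧ BB w q := by
  obtain ⟨T, x⟩ := p
  obtain ⟨S, y⟩ := q
  obtain ⟨hT, hx⟩ := hp
  obtain ⟨hS, hy⟩ := hq
  simp only at hT hx hS hy
  rcases h with ⟨h1, h2, h3⟩ | ⟨h1, h2, h3, h4⟩
  · simp only at h1 h2 h3
    obtain ⟨z, hzT, hzS⟩ := not_disjoint_iff.1 h3
    have hxz : x ≠ z := fun h => hx (h ▸ hzT)
    have hyz : y ≠ z := fun h => hy (h ▸ hzS)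
    refine one_mk z {x, y} {z} ?_ ?_ ?_ ?_
    · rw [disjoint_left]
      intro u hu hu'
      simp only [mem_insert, mem_singleton] at hu hu'
      rcases hu with rfl | rfl <;> tauto
    · exact (card2 _ _).trans (by omega)
    · rw [card_singleton]; omega
    · intro R hR hRX hRk
      have hzR : z ∉ R := fun h => disjoint_left.1 hRX h (by simp)
      have hxR : x ∈ R := hR (by simp)
      have hyR : y ∈ R := hR (by simp)
      exact ⟨⟨hRk, hzR⟩, Or.inl ⟨hxR, hzT, fun h => disjoint_left.1 h h2 hyR⟩,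
        Or.inl ⟨hzS, hyR, fun h => disjoint_left.1 h hxR h1⟩⟩
  · simp only at h1 h2 h3 h4
    obtain ⟨z, hzT, -, -⟩ := exists_ne hT hk x x
    obtain ⟨t, ht, htz, -⟩ := exists_ne hT hk z z
    have htS : t ∉ S := fun h => disjoint_left.1 h1 ht h
    have hzS : z ∉ S := fun h => disjoint_left.1 h1 hzT h
    have hxz : x ≠ z := fun h => hx (h ▸ hzT)
    have hyz : y ≠ z := fun h => h4 (h ▸ hzT)
    have hty : t ≠ y := fun h => h4 (h ▸ ht)
    refine one_mk z {x, t} (insert y (insert z S)) ?_ ?_ ?_ ?_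
    · rw [disjoint_left]
      intro u hu hu'
      simp only [mem_insert, mem_singleton] at hu hu'
      rcases hu with rfl | rfl <;> tauto
    · exact (card2 _ _).trans (by omega)
    · have h5 := card_insert_le y (insert z S)
      have h6 := card_insert_le z S
      omega
    · intro R hR hRX hRk
      have hzR : z ∉ R := fun h => disjoint_left.1 hRX h (by simp)
      have hyR : y ∉ R := fun h => disjoint_left.1 hRX h (by simp)
      have hxR : x ∈ R := hR (by simp)
      have htR : t ∈ R := hR (by simp)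
      have d2 : Disjoint R S := by
        rw [disjoint_left]
        intro u hu hu'
        exact disjoint_left.1 hRX hu (by simp [hu'])
      exact ⟨⟨hRk, hzR⟩, Or.inl ⟨hxR, hzT, fun h => disjoint_left.1 h ht htR⟩,
        Or.inr ⟨d2, hyz.symm, hzS, hyR⟩⟩

/-- the three kinds of pairs of colour `a` -/
lemma AA_cases {k : ℕ} {T S : Finset α} {x y : α} (hx : x ∉ T) (hy : y ∉ S)
    (h : AA (T, x) (S, y)) :
    (Disjoint T S ∧ x ∈ S ∧ y ∉ T) ∨ (Disjoint T S ∧ x ∉ S ∧ y ∈ T) ∨
      (¬ Disjoint T S ∧ ¬ (x ∈ S ∧ y ∈ T)) := by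
  obtain ⟨h0, h1, h2⟩ := h
  unfold BB at h1
  unfold CC at h2
  simp only at h1 h2
  by_cases hd : Disjoint T S
  · by_cases a : x ∈ S <;> by_cases b : y ∈ T
    · exact absurd ⟨hd, Or.inr ⟨a, b⟩⟩ h2
    · exact Or.inl ⟨hd, a, b⟩
    · exact Or.inr (Or.inl ⟨hd, a, b⟩)
    · by_cases c : x = y
      · exact absurd ⟨hd, Or.inl c⟩ h2
      · exact absurd (Or.inr ⟨hd, c, a, b⟩) h1
  · exact Or.inr (Or.inr ⟨hd, fun h => h1 (Or.inl ⟨h.1, h.2, hd⟩)⟩)

/-- witnesses `(b, b)` for the colour `a`, first kind -/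
lemma wit_bb_1 {k : ℕ} (hk : 3 ≤ k) (hα : Fintype.card α = 3 * k) {T S : Finset α} {x y : α}
    (hT : T.card = k) (hS : S.card = k) (hy : y ∉ S)
    (hd : Disjoint T S) (hxS : x ∈ S) (hyT : y ∉ T) :
    ∃ w, OK k w ∧ BB (T, x) w ∧ BB w (S, y) := by
  obtain ⟨z, hz, hzx, -⟩ := exists_ne hS hk x x
  obtain ⟨s, hs, hsx, hsz⟩ := exists_ne hS hk x z
  have hzT : z ∉ T := fun h => disjoint_left.1 hd h hz
  have hsT : s ∉ T := fun h => disjoint_left.1 hd h hs
  have hyx : y ≠ x := fun h => hy (h ▸ hxS)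
  have hyz : y ≠ z := fun h => hy (h ▸ hz)
  refine one_mk z {y, s} (insert x (insert z T)) ?_ ?_ ?_ ?_
  · rw [disjoint_left]
    intro u hu hu'
    simp only [mem_insert, mem_singleton] at hu hu'
    rcases hu with rfl | rfl <;> tauto
  · exact (card2 _ _).trans (by omega)
  · have h5 := card_insert_le x (insert z T)
    have h6 := card_insert_le z T
    omega
  · intro R hR hRX hRk
    have hzR : z ∉ R := fun h => disjoint_left.1 hRX h (by simp)
    have hxR : x ∉ R := fun h => disjoint_left.1 hRX h (by simp)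
    have hyR : y ∈ R := hR (by simp)
    have hsR : s ∈ R := hR (by simp)
    have d2 : Disjoint T R := by
      rw [disjoint_left]
      intro u hu hu'
      exact disjoint_left.1 hRX hu' (by simp [hu])
    exact ⟨⟨hRk, hzR⟩, Or.inr ⟨d2, hzx.symm, hxR, hzT⟩,
      Or.inl ⟨hz, hyR, fun h => disjoint_left.1 h hsR hs⟩⟩

/-- witnesses `(b, b)` for the colour `a` -/
lemma wit_bb {k : ℕ} (hk : 3 ≤ k) (hα : Fintype.card α = 3 * k) {p q : Finset α × α}
    (hp : OK k p) (hq : OK k q) (h : AA p q) : ∃ w, OK k w ∧ BB p w ∧ BB w q := by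
  obtain ⟨T, x⟩ := p
  obtain ⟨S, y⟩ := q
  obtain ⟨hT, hx⟩ := hp
  obtain ⟨hS, hy⟩ := hq
  simp only at hT hx hS hy
  rcases AA_cases (k := k) hx hy h with ⟨hd, hxS, hyT⟩ | ⟨hd, hxS, hyT⟩ | ⟨hd, hnot⟩
  · exact wit_bb_1 hk hα hT hS hy hd hxS hyT
  · obtain ⟨w, h1, h2, h3⟩ := wit_bb_1 hk hα hS hT hx hd.symm hyT hxS
    exact ⟨w, h1, BB_symm h3, BB_symm h2⟩
  · -- the second kind
    have hgen : ∀ z ∈ T ∩ S, ∀ t ∈ T, ∀ s ∈ S, t ≠ z → s ≠ z →
        ({x, y, t, s} : Finset α).card ≤ 3 → ∃ w, OK k w ∧ BB (T, x) w ∧ BB w (S, y) := by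
      intro z hz t ht s hs htz hsz hcard
      rw [mem_inter] at hz
      have hxz : x ≠ z := fun h => hx (h ▸ hz.1)
      have hyz : y ≠ z := fun h => hy (h ▸ hz.2)
      refine one_mk z {x, y, t, s} {z} ?_ ?_ ?_ ?_
      · rw [disjoint_left]
        intro u hu hu'
        simp only [mem_insert, mem_singleton] at hu hu'
        rcases hu with rfl | rfl | rfl | rfl <;> tauto
      · exact hcard.trans hk
      · rw [card_singleton]; omega
      · intro R hR hRX hRk
        have hzR : z ∉ R := fun h => disjoint_left.1 hRX h (by simp)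
        have hxR : x ∈ R := hR (by simp)
        have hyR : y ∈ R := hR (by simp)
        have htR : t ∈ R := hR (by simp)
        have hsR : s ∈ R := hR (by simp)
        exact ⟨⟨hRk, hzR⟩, Or.inl ⟨hxR, hz.1, fun h => disjoint_left.1 h ht htR⟩,
          Or.inl ⟨hz.2, hyR, fun h => disjoint_left.1 h hsR hs⟩⟩
    obtain ⟨z, hzT, hzS⟩ := not_disjoint_iff.1 hd
    have hz : z ∈ T ∩ S := mem_inter.2 ⟨hzT, hzS⟩
    by_cases hc : 1 < (T ∩ S).card
    · obtain ⟨t, ht, htz⟩ := exists_ne1 hc z
      refine hgen z hz t (mem_inter.1 ht).1 t (mem_inter.1 ht).2 htz htz ?_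
      rw [show ({x, y, t, t} : Finset α) = {x, y, t} by simp]
      exact card3 _ _ _
    · by_cases hxS : x ∈ S
      · obtain ⟨t, ht, htz, -⟩ := exists_ne hT hk z z
        refine hgen z hz t ht x hxS htz (fun h => hx (h ▸ hzT)) ?_
        rw [show ({x, y, t, x} : Finset α) = {x, y, t} by ext; simp; tauto]
        exact card3 _ _ _
      · by_cases hyT : y ∈ T
        · obtain ⟨s, hs, hsz, -⟩ := exists_ne hS hk z z
          refine hgen z hz y hyT s hs (fun h => hy (h ▸ hzS)) hsz ?_
          rw [show ({x, y, y, s} : Finset α) = {x, y, s} by ext; simp]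
          exact card3 _ _ _
        · by_cases hxy : x = y
          · obtain ⟨t, ht, htz, -⟩ := exists_ne hT hk z z
            obtain ⟨s, hs, hsz, -⟩ := exists_ne hS hk z z
            refine hgen z hz t ht s hs htz hsz ?_
            rw [hxy, show ({y, y, t, s} : Finset α) = {y, t, s} by ext; simp]
            exact card3 _ _ _
          · -- `T \ S` has at least two elements
            have hTS : 1 < (T \ S).card := by
              have h1 := card_sdiff_add_card_inter T S
              omega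
            obtain ⟨z', hz', -⟩ := exists_ne1 hTS x
            obtain ⟨t, ht, htz⟩ := exists_ne1 hTS z'
            rw [mem_sdiff] at hz' ht
            have hxz : x ≠ z' := fun h => hx (h ▸ hz'.1)
            have hyz : y ≠ z' := fun h => hyT (h ▸ hz'.1)
            have hty : t ≠ y := fun h => hyT (h ▸ ht.1)
            refine one_mk z' {x, t} (insert y (insert z' S)) ?_ ?_ ?_ ?_
            · rw [disjoint_left]
              intro u hu hu'
              simp only [mem_insert, mem_singleton] at hu hu'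
              rcases hu with rfl | rfl <;> tauto
            · exact (card2 _ _).trans (by omega)
            · have h5 := card_insert_le y (insert z' S)
              have h6 := card_insert_le z' S
              omega
            · intro R hR hRX hRk
              have hzR : z' ∉ R := fun h => disjoint_left.1 hRX h (by simp)
              have hyR : y ∉ R := fun h => disjoint_left.1 hRX h (by simp)
              have hxR : x ∈ R := hR (by simp)
              have htR : t ∈ R := hR (by simp)
              have d2 : Disjoint R S := by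
                rw [disjoint_left]
                intro u hu hu'
                exact disjoint_left.1 hRX hu (by simp [hu'])
              exact ⟨⟨hRk, hzR⟩, Or.inl ⟨hxR, hz'.1, fun h => disjoint_left.1 h ht.1 htR⟩,
                Or.inr ⟨d2, hyz.symm, hz'.2, hyR⟩⟩

/-- the complement of `T ∪ S` -/
lemma card_rest {k : ℕ} (hα : Fintype.card α = 3 * k) {T S : Finset α}
    (hT : T.card = k) (hS : S.card = k) : (T ∪ S)ᶜ.card = k + (T ∩ S).card := by
  have h1 := card_union_add_card_inter T S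
  have h2 := card_le_univ (T ∪ S)
  rw [card_compl]
  omega

/-- witnesses `(b, c)` for the colour `a` -/
lemma wit_bc {k : ℕ} (hk : 3 ≤ k) (hα : Fintype.card α = 3 * k) {p q : Finset α × α}
    (hp : OK k p) (hq : OK k q) (h : AA p q) : ∃ w, OK k w ∧ BB p w ∧ CC w q := by
  obtain ⟨T, x⟩ := p
  obtain ⟨S, y⟩ := q
  obtain ⟨hT, hx⟩ := hp
  obtain ⟨hS, hy⟩ := hq
  simp only at hT hx hS hy
  have hne : (T, x) ≠ (S, y) := h.1
  rcases AA_cases (k := k) hx hy h with ⟨hd, hxS, hyT⟩ | ⟨hd, hxS, hyT⟩ | ⟨hd, hnot⟩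
  · obtain ⟨z, hz, hzx, -⟩ := exists_ne hS hk x x
    have hzT : z ∉ T := fun h => disjoint_left.1 hd h hz
    refine ⟨((T ∪ S)ᶜ, z), ⟨?_, ?_⟩, Or.inr ⟨?_, hzx.symm, ?_, hzT⟩, ⟨?_, Or.inr ⟨hz, ?_⟩⟩⟩
    · rw [card_rest hα hT hS, disjoint_iff_inter_eq_empty.1 hd, card_empty, add_zero]
    · simp [hz]
    · rw [disjoint_left]
      intro u hu hu'
      simp only [mem_compl, mem_union, not_or] at hu'
      exact hu'.1 hu
    · simp [hxS]
    · rw [disjoint_left]
      intro u hu hu'
      simp only [mem_compl, mem_union, not_or] at hu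
      exact hu.2 hu'
    · simp [hy, hyT]
  · obtain ⟨t, ht, hty, -⟩ := exists_ne hT hk y y
    have htS : t ∉ S := fun h => disjoint_left.1 hd ht h
    have hxy : x ≠ y := fun h => hx (h ▸ hyT)
    refine one_mk y {x, t} (insert y S) ?_ ?_ ?_ ?_
    · rw [disjoint_left]
      intro u hu hu'
      simp only [mem_insert, mem_singleton] at hu hu'
      rcases hu with rfl | rfl <;> tauto
    · exact (card2 _ _).trans (by omega)
    · have h6 := card_insert_le y S
      omega
    · intro R hR hRX hRk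
      have hyR : y ∉ R := fun h => disjoint_left.1 hRX h (by simp)
      have hxR : x ∈ R := hR (by simp)
      have htR : t ∈ R := hR (by simp)
      have d2 : Disjoint R S := by
        rw [disjoint_left]
        intro u hu hu'
        exact disjoint_left.1 hRX hu (by simp [hu'])
      exact ⟨⟨hRk, hyR⟩, Or.inl ⟨hxR, hyT, fun h => disjoint_left.1 h ht htR⟩, ⟨d2, Or.inl rfl⟩⟩
  · obtain ⟨z, hzT, hzS⟩ := not_disjoint_iff.1 hd
    by_cases hyT : y ∈ T
    · have hxS : x ∉ S := fun h => hnot ⟨h, hyT⟩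
      refine one_mk z {x, y} S ?_ ?_ ?_ ?_
      · rw [disjoint_left]
        intro u hu hu'
        simp only [mem_insert, mem_singleton] at hu
        rcases hu with rfl | rfl <;> tauto
      · exact (card2 _ _).trans (by omega)
      · omega
      · intro R hR hRX hRk
        have hxR : x ∈ R := hR (by simp)
        have hyR : y ∈ R := hR (by simp)
        exact ⟨⟨hRk, fun h => disjoint_left.1 hRX h hzS⟩,
          Or.inl ⟨hxR, hzT, fun h => disjoint_left.1 h hyT hyR⟩, ⟨hRX, Or.inr ⟨hzS, hyR⟩⟩⟩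
    · by_cases hxS : x ∈ S
      · have hxy : x ≠ y := fun h => hy (h ▸ hxS)
        refine one_mk y ∅ (insert y (T ∪ S)) (disjoint_empty_left _) (by simp) ?_ ?_
        · have h1 := card_rest hα hT hS
          rw [card_compl] at h1
          have h2 := card_insert_le y (T ∪ S)
          have h3 : 0 < (T ∩ S).card := card_pos.2 ⟨z, mem_inter.2 ⟨hzT, hzS⟩⟩
          omega
        · intro R _ hRX hRk
          have hyR : y ∉ R := fun h => disjoint_left.1 hRX h (by simp)
          have hxR : x ∉ R := fun h => disjoint_left.1 hRX h (by simp [hxS])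
          have d2 : Disjoint R S := by
            rw [disjoint_left]
            intro u hu hu'
            exact disjoint_left.1 hRX hu (by simp [hu'])
          have d1 : Disjoint T R := by
            rw [disjoint_left]
            intro u hu hu'
            exact disjoint_left.1 hRX hu' (by simp [hu])
          exact ⟨⟨hRk, hyR⟩, Or.inr ⟨d1, hxy, hxR, hyT⟩, ⟨d2, Or.inl rfl⟩⟩
      · by_cases hTS : T ⊆ S
        · have hTS' : T = S := eq_of_subset_of_card_le hTS (by omega)
          have hxy : x ≠ y := fun h => hne (by rw [h, hTS'])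
          refine one_mk y ∅ (insert x (insert y S)) (disjoint_empty_left _) (by simp) ?_ ?_
          · have h2 := card_insert_le x (insert y S)
            have h3 := card_insert_le y S
            omega
          · intro R _ hRX hRk
            have hyR : y ∉ R := fun h => disjoint_left.1 hRX h (by simp)
            have hxR : x ∉ R := fun h => disjoint_left.1 hRX h (by simp)
            have d2 : Disjoint R S := by
              rw [disjoint_left]
              intro u hu hu'
              exact disjoint_left.1 hRX hu (by simp [hu'])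
            exact ⟨⟨hRk, hyR⟩, Or.inr ⟨hTS' ▸ d2.symm, hxy, hxR, hyT⟩, ⟨d2, Or.inl rfl⟩⟩
        · obtain ⟨t, ht, htS⟩ := not_subset.1 hTS
          refine one_mk z {x, y, t} S ?_ ?_ ?_ ?_
          · rw [disjoint_left]
            intro u hu hu'
            simp only [mem_insert, mem_singleton] at hu
            rcases hu with rfl | rfl | rfl <;> tauto
          · exact (card3 _ _ _).trans (by omega)
          · omega
          · intro R hR hRX hRk
            have hxR : x ∈ R := hR (by simp)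
            have hyR : y ∈ R := hR (by simp)
            have htR : t ∈ R := hR (by simp)
            exact ⟨⟨hRk, fun h => disjoint_left.1 hRX h hzS⟩,
              Or.inl ⟨hxR, hzT, fun h => disjoint_left.1 h ht htR⟩, ⟨hRX, Or.inr ⟨hzS, hyR⟩⟩⟩

/-- witnesses `(c, c)` for the colour `a` -/
lemma wit_cc {k : ℕ} (hk : 3 ≤ k) (hα : Fintype.card α = 3 * k) {p q : Finset α × α}
    (hp : OK k p) (hq : OK k q) (h : AA p q) : ∃ w, OK k w ∧ CC p w ∧ CC w q := by
  obtain ⟨T, x⟩ := p
  obtain ⟨S, y⟩ := q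
  obtain ⟨hT, hx⟩ := hp
  obtain ⟨hS, hy⟩ := hq
  simp only at hT hx hS hy
  have hrest := card_rest hα hT hS
  have dT : ∀ R : Finset α, R ⊆ (T ∪ S)ᶜ → Disjoint T R := by
    intro R hR
    rw [disjoint_left]
    intro u hu hu'
    have := hR hu'
    simp [hu] at this
  have dS : ∀ R : Finset α, R ⊆ (T ∪ S)ᶜ → Disjoint R S := by
    intro R hR
    rw [disjoint_left]
    intro u hu hu'
    have := hR hu
    simp [hu'] at this
  rcases AA_cases (k := k) hx hy h with ⟨hd, hxS, hyT⟩ | ⟨hd, hxS, hyT⟩ | ⟨hd, hnot⟩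
  · refine ⟨((T ∪ S)ᶜ, x), ⟨?_, ?_⟩, ⟨dT _ (Subset.refl _), Or.inl rfl⟩,
      ⟨dS _ (Subset.refl _), Or.inr ⟨hxS, ?_⟩⟩⟩
    · rw [hrest, disjoint_iff_inter_eq_empty.1 hd, card_empty, add_zero]
    · simp [hxS]
    · simp [hy, hyT]
  · refine ⟨((T ∪ S)ᶜ, y), ⟨?_, ?_⟩, ⟨dT _ (Subset.refl _), Or.inr ⟨?_, hyT⟩⟩,
      ⟨dS _ (Subset.refl _), Or.inl rfl⟩⟩
    · rw [hrest, disjoint_iff_inter_eq_empty.1 hd, card_empty, add_zero]
    · simp [hyT]
    · simp [hx, hxS]
  · obtain ⟨z, hzT, hzS⟩ := not_disjoint_iff.1 hd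
    have h3 : 0 < (T ∩ S).card := card_pos.2 ⟨z, mem_inter.2 ⟨hzT, hzS⟩⟩
    by_cases hxS : x ∈ S
    · have hyT : y ∉ T := fun h => hnot ⟨hxS, h⟩
      obtain ⟨R, h1, h2, h4⟩ := exists_subsuperset_card_eq (s := {y}) (t := (T ∪ S)ᶜ) (n := k)
        (by simp [hy, hyT]) (by rw [card_singleton]; omega) (by omega)
      have hxR : x ∉ R := fun h => by have := h2 h; simp [hxS] at this
      exact ⟨(R, x), ⟨h4, hxR⟩, ⟨dT R h2, Or.inl rfl⟩, ⟨dS R h2, Or.inr ⟨hxS, h1 (by simp)⟩⟩⟩
    · by_cases hyT : y ∈ T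
      · obtain ⟨R, h1, h2, h4⟩ := exists_subsuperset_card_eq (s := {x}) (t := (T ∪ S)ᶜ) (n := k)
          (by simp [hx, hxS]) (by rw [card_singleton]; omega) (by omega)
        have hyR : y ∉ R := fun h => by have := h2 h; simp [hyT] at this
        exact ⟨(R, y), ⟨h4, hyR⟩, ⟨dT R h2, Or.inr ⟨h1 (by simp), hyT⟩⟩, ⟨dS R h2, Or.inl rfl⟩⟩
      · by_cases hxy : x = y
        · subst hxy
          obtain ⟨R, h1, h2, h4⟩ := exists_subsuperset_card_eq (s := ∅)
            (t := (T ∪ S)ᶜ.erase x) (n := k) (by simp) (by simp)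
            (by rw [card_erase_of_mem (by simp [hx, hxS])]; omega)
          have h2' : R ⊆ (T ∪ S)ᶜ := h2.trans (erase_subset _ _)
          have hxR : x ∉ R := fun h => by have := h2 h; simp at this
          exact ⟨(R, x), ⟨h4, hxR⟩, ⟨dT R h2', Or.inl rfl⟩, ⟨dS R h2', Or.inl rfl⟩⟩
        · obtain ⟨R, h1, h2, h4⟩ := exists_subsuperset_card_eq (s := {x, y}) (t := (T ∪ S)ᶜ)
            (n := k) (by
              intro u hu
              simp only [mem_insert, mem_singleton] at hu
              rcases hu with rfl | rfl <;> simp [hx, hxS, hy, hyT])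
            ((card2 _ _).trans (by omega)) (by omega)
          have hzR : z ∉ R := fun h => by have := h2 h; simp [hzT] at this
          exact ⟨(R, z), ⟨h4, hzR⟩, ⟨dT R h2, Or.inr ⟨h1 (by simp), hzT⟩⟩,
            ⟨dS R h2, Or.inr ⟨hzS, h1 (by simp)⟩⟩⟩

end Pool.Agent.Y413.RA
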